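import Mathlib
import Pool.Agent.Q299.Reconstruct

set_option autoImplicit false

namespace Pool.Agent.Results.MP_f30308_lc.Lifting

open Pool.Agent.Q299.ClosedMonoids Pool.Agent.Q299.Reconstruct

/-- The endomorphism monoid of a structure: all homomorphisms from the structure to itself. -/
def EndMonoid (L : FirstOrder.Language.{0, 0}) (Ω : Type) [L.Structure Ω] : Submonoid (Function.End Ω) where
  carrier := {f | (∀ (n : ℕ) (F : L.Functions n) (x : Fin n → Ω),
      f (FirstOrder.Language.Structure.funMap F x) = FirstOrder.Language.Structure.funMap F (fun i => f (x i))) ∧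
    ∀ (n : ℕ) (R : L.Relations n) (x : Fin n → Ω),
      FirstOrder.Language.Structure.RelMap R x → FirstOrder.Language.Structure.RelMap R (fun i => f (x i))}
  one_mem' := ⟨fun _ _ _ => rfl, fun _ _ _ h => h⟩
  mul_mem' := by
    intro f g hf hg
    refine ⟨fun n F x => ?_, fun n R x h => hf.2 n R _ (hg.2 n R x h)⟩
    change f (g (FirstOrder.Language.Structure.funMap F x)) = _
    rw [hg.1, hf.1]
    rfl

/-- The automorphism group of a structure. -/
def AutGroup (L : FirstOrder.Language.{0, 0}) (Ω : Type) [L.Structure Ω] : Subgroup (Equiv.Perm Ω) where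
  carrier := {g | (∀ (n : ℕ) (F : L.Functions n) (x : Fin n → Ω),
      g (FirstOrder.Language.Structure.funMap F x) = FirstOrder.Language.Structure.funMap F (fun i => g (x i))) ∧
    ∀ (n : ℕ) (R : L.Relations n) (x : Fin n → Ω),
      FirstOrder.Language.Structure.RelMap R (fun i => g (x i)) ↔ FirstOrder.Language.Structure.RelMap R x}
  one_mem' := ⟨fun _ _ _ => rfl, fun _ _ _ => Iff.rfl⟩
  mul_mem' := by
    intro f g hf hg
    refine ⟨fun n F x => ?_, fun n R x => (hf.2 n R _).trans (hg.2 n R x)⟩
    change f (g (FirstOrder.Language.Structure.funMap F x)) = _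
    rw [hg.1, hf.1]
    rfl
  inv_mem' := by
    intro g hg
    refine ⟨fun n F x => ?_, fun n R x => ?_⟩
    · change g.symm (FirstOrder.Language.Structure.funMap F x) = _
      rw [Equiv.symm_apply_eq, hg.1]
      congr 1
      funext i
      exact (g.apply_symm_apply (x i)).symm
    · rw [← hg.2 n R (fun i => g⁻¹ (x i))]
      have : (fun i => g (g⁻¹ (x i))) = x := funext fun i => g.apply_symm_apply (x i)
      rw [this]

/-- A permutation group is oligomorphic: for each `n` it has finitely many orbits on `Ω^n`. -/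
def Oligomorphic {Ω : Type} (G : Subgroup (Equiv.Perm Ω)) : Prop :=
  ∀ n : ℕ, ∃ R : Set (Fin n → Ω), R.Finite ∧
    ∀ x : Fin n → Ω, ∃ r ∈ R, ∃ g ∈ G, ∀ i, g (x i) = r i

/-- A closed oligomorphic group `G` has reconstruction: whenever `G` is abstractly isomorphic to the
automorphism group of a countable `ω`-categorical structure (i.e. a countable structure whose
automorphism group is oligomorphic), the two groups are topologically isomorphic. -/
def GroupHasReconstruction {Ω : Type} (G : Subgroup (Equiv.Perm Ω)) : Prop :=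
  ∀ (L : FirstOrder.Language.{0, 0}) (Ω' : Type) [Countable Ω'] [L.Structure Ω'],
    Oligomorphic (AutGroup L Ω') → Nonempty (G ≃* AutGroup L Ω') →
      ∃ φ : G ≃* AutGroup L Ω', @Continuous _ _ (groupTop G) (groupTop (AutGroup L Ω')) φ ∧
        @Continuous _ _ (groupTop (AutGroup L Ω')) (groupTop G) φ.symm

/-- A closed monoid `S` has reconstruction: whenever `S` is abstractly isomorphic to the endomorphism
monoid of a countable `ω`-categorical structure, the two monoids are topologically isomorphic. -/
def MonoidHasReconstruction {Ω : Type} (S : Submonoid (Function.End Ω)) : Prop :=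
  ∀ (L : FirstOrder.Language.{0, 0}) (Ω' : Type) [Countable Ω'] [L.Structure Ω'],
    Oligomorphic (AutGroup L Ω') → Nonempty (S ≃* EndMonoid L Ω') →
      ∃ φ : S ≃* EndMonoid L Ω', @Continuous _ _ (subTop S) (subTop (EndMonoid L Ω')) φ ∧
        @Continuous _ _ (subTop (EndMonoid L Ω')) (subTop S) φ.symm

theorem closedIn_endMonoid (L : FirstOrder.Language.{0, 0}) (Ω : Type) [L.Structure Ω] :
    ClosedIn (EndMonoid L Ω) := by
  classical
  rw [closedIn_iff]
  intro f hf
  constructor
  · intro n F x
    obtain ⟨g, hg, h⟩ := hf (insert (FirstOrder.Language.Structure.funMap F x) (Finset.univ.image x))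
    rw [← h _ (Finset.mem_insert_self _ _), hg.1]
    congr 1
    funext i
    exact h _ (Finset.mem_insert_of_mem (Finset.mem_image_of_mem _ (Finset.mem_univ i)))
  · intro n R x hx
    obtain ⟨g, hg, h⟩ := hf (Finset.univ.image x)
    have h1 := hg.2 n R x hx
    have h2 : (fun i => g (x i)) = fun i => f (x i) :=
      funext fun i => h _ (Finset.mem_image_of_mem _ (Finset.mem_univ i))
    rw [h2] at h1
    exact h1

theorem unitPerms_endMonoid (L : FirstOrder.Language.{0, 0}) (Ω : Type) [L.Structure Ω] :
    unitPerms (EndMonoid L Ω) = AutGroup L Ω := by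
  ext g
  constructor
  · rintro ⟨h1, h2⟩
    refine ⟨h1.1, fun n R x => ⟨fun h => ?_, h1.2 n R x⟩⟩
    have h3 := h2.2 n R _ h
    have h4 : (fun i => toEnd g⁻¹ (g (x i))) = x := funext fun i => g.symm_apply_apply (x i)
    rw [h4] at h3
    exact h3
  · intro hg
    have hg' := (AutGroup L Ω).inv_mem hg
    exact ⟨⟨hg.1, fun n R x h => (hg.2 n R x).2 h⟩, ⟨hg'.1, fun n R x h => (hg'.2 n R x).2 h⟩⟩

/-- Let `G` be a closed oligomorphic subgroup of `Sym(ω)` that has reconstruction. Then the closure
of `G` in `ω^ω` has reconstruction. -/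
theorem result (G : Subgroup (Equiv.Perm ℕ)) (hG : ClosedGroup G) (hO : Oligomorphic G)
    (h : GroupHasReconstruction G) : MonoidHasReconstruction (closureMonoid G) := by
  rintro L Ω' _ _ hO' ⟨ψ⟩
  have e := unitPerms_endMonoid L Ω'
  obtain ⟨φ, hφ, hφ'⟩ := h L Ω' hO' ⟨(groupIso hG ψ).trans (MulEquiv.subgroupCongr e)⟩
  have key : ∀ T' : Submonoid (Function.End Ω'), T' = EndMonoid L Ω' →
      (∃ Φ : closureMonoid G ≃* T',
        @Continuous _ _ (subTop (closureMonoid G)) (subTop T') Φ ∧
        @Continuous _ _ (subTop T') (subTop (closureMonoid G)) Φ.symm) →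
      ∃ Φ : closureMonoid G ≃* EndMonoid L Ω',
        @Continuous _ _ (subTop (closureMonoid G)) (subTop (EndMonoid L Ω')) Φ ∧
        @Continuous _ _ (subTop (EndMonoid L Ω')) (subTop (closureMonoid G)) Φ.symm := by
    rintro T' rfl h
    exact h
  have h2 := eq_closure G (EndMonoid L Ω') (closedIn_endMonoid L Ω') ψ
  rw [e] at h2
  exact key _ h2 (extend φ hφ hφ')

end Pool.Agent.Results.MP_f30308_lc.Lifting
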